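import Pool.Agent.U37.LC.Stm

set_option autoImplicit false

open MeasureTheory Filter Topology Complex
open scoped ComplexConjugate InnerProductSpace BoundedContinuousFunction

namespace Pool.Agent.U606.LC.Ker

open Pool.Agent.U37.LC

/-- the measure on one period -/
noncomputable abbrev mu (L : ℝ) : Measure ℝ := (volume : Measure ℝ).restrict (Set.Ioc (0 : ℝ) L)

noncomputable def row (L : ℝ) (k : ℝ × ℝ →ᵇ ℂ) (s : ℝ) : XX L :=
  BoundedContinuousFunction.toLp 2 (mu L) ℂ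
    (star (k.compContinuous ⟨fun t : ℝ => (s, t), by fun_prop⟩))

theorem row_ae (L : ℝ) (k : ℝ × ℝ →ᵇ ℂ) (s : ℝ) : row L k s =ᵐ[mu L] fun t => conj (k (s, t)) := by
  have := BoundedContinuousFunction.coeFn_toLp (E := ℂ) 2 (mu L) ℂ
    (star (k.compContinuous ⟨fun t : ℝ => (s, t), by fun_prop⟩))
  refine this.trans (Eventually.of_forall fun t => ?_)
  rfl

noncomputable def fn (L : ℝ) (k : ℝ × ℝ →ᵇ ℂ) (b : XX L) (s : ℝ) : ℂ := ⟪row L k s, b⟫_ℂ

theorem fn_eq (L : ℝ) (k : ℝ × ℝ →ᵇ ℂ) (b : XX L) (s : ℝ) :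
    fn L k b s = ∫ t in Set.Ioc (0 : ℝ) L, k (s, t) * b t := by
  unfold fn
  rw [L2.inner_def]
  refine integral_congr_ae ?_
  filter_upwards [row_ae L k s] with t ht
  rw [ht, RCLike.inner_apply, conj_conj, mul_comm]

/-- the constant -/
noncomputable def DD (L : ℝ) : ℝ := (measureUnivNNReal (mu L) : ℝ) ^ (2 : ENNReal).toReal⁻¹

theorem DD_nonneg (L : ℝ) : 0 ≤ DD L := Real.rpow_nonneg (NNReal.coe_nonneg _) _

theorem norm_row_le (L : ℝ) (k : ℝ × ℝ →ᵇ ℂ) (s : ℝ) : ‖row L k s‖ ≤ DD L * ‖k‖ := by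
  refine Lp.norm_le_of_ae_bound (norm_nonneg _) ?_
  filter_upwards [row_ae L k s] with t ht
  rw [ht, RCLike.norm_conj]
  exact k.norm_coe_le_norm _

theorem norm_fn_le (L : ℝ) (k : ℝ × ℝ →ᵇ ℂ) (b : XX L) (s : ℝ) :
    ‖fn L k b s‖ ≤ DD L * ‖k‖ * ‖b‖ :=
  (norm_inner_le_norm _ _).trans (mul_le_mul_of_nonneg_right (norm_row_le L k s) (norm_nonneg _))

theorem continuous_fn (L : ℝ) (k : ℝ × ℝ →ᵇ ℂ) (b : XX L) : Continuous (fn L k b) := by
  have hb : Integrable (b : ℝ → ℂ) (mu L) := (Lp.memLp b).integrable (by norm_num)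
  have : fn L k b = fun s => ∫ t in Set.Ioc (0 : ℝ) L, k (s, t) * b t := funext (fn_eq L k b)
  rw [this]
  refine continuous_of_dominated (bound := fun t => ‖k‖ * ‖b t‖) ?_ ?_ ?_ ?_
  · intro s
    exact (by fun_prop : Continuous fun t => k (s, t)).aestronglyMeasurable.mul hb.1
  · intro s
    refine Eventually.of_forall fun t => ?_
    rw [norm_mul]
    exact mul_le_mul_of_nonneg_right (k.norm_coe_le_norm _) (norm_nonneg _)
  · exact hb.norm.const_mul _
  · exact Eventually.of_forall fun t => by fun_prop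

noncomputable def bfn (L : ℝ) (k : ℝ × ℝ →ᵇ ℂ) (b : XX L) : ℝ →ᵇ ℂ :=
  BoundedContinuousFunction.ofNormedAddCommGroup (fn L k b) (continuous_fn L k b)
    (DD L * ‖k‖ * ‖b‖) (norm_fn_le L k b)

theorem row_add (L : ℝ) (k k' : ℝ × ℝ →ᵇ ℂ) (s : ℝ) : row L (k + k') s = row L k s + row L k' s := by
  unfold row
  rw [← map_add, ← star_add]
  rfl

theorem row_smul (L : ℝ) (c : ℂ) (k : ℝ × ℝ →ᵇ ℂ) (s : ℝ) :
    row L (c • k) s = conj c • row L k s := by
  unfold row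
  rw [← map_smul]
  congr 1
  ext t
  simp

noncomputable def KK (L : ℝ) : (ℝ × ℝ →ᵇ ℂ) →L[ℂ] (XX L →L[ℂ] XX L) :=
  LinearMap.mkContinuous₂ (LinearMap.mk₂ ℂ
    (fun k b => BoundedContinuousFunction.toLp 2 (mu L) ℂ (bfn L k b))
    (by
      intro k k' b
      rw [← map_add]
      congr 1
      ext s
      change fn L (k + k') b s = fn L k b s + fn L k' b s
      unfold fn
      rw [row_add, inner_add_left])
    (by
      intro c k b
      rw [← map_smul]
      congr 1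
      ext s
      change fn L (c • k) b s = c • fn L k b s
      unfold fn
      rw [row_smul, inner_smul_left, conj_conj, smul_eq_mul])
    (by
      intro k b b'
      rw [← map_add]
      congr 1
      ext s
      change fn L k (b + b') s = fn L k b s + fn L k b' s
      unfold fn
      rw [inner_add_right])
    (by
      intro c k b
      rw [← map_smul]
      congr 1
      ext s
      change fn L k (c • b) s = c • fn L k b s
      unfold fn
      rw [inner_smul_right, smul_eq_mul]))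
    (DD L * DD L) (by
      intro k b
      change ‖BoundedContinuousFunction.toLp 2 (mu L) ℂ (bfn L k b)‖ ≤ _
      have : ‖BoundedContinuousFunction.toLp 2 (mu L) ℂ (bfn L k b)‖ ≤
          DD L * (DD L * ‖k‖ * ‖b‖) := by
        refine Lp.norm_le_of_ae_bound
          (mul_nonneg (mul_nonneg (DD_nonneg L) (norm_nonneg _)) (norm_nonneg _)) ?_
        filter_upwards [BoundedContinuousFunction.coeFn_toLp (E := ℂ) 2 (mu L) ℂ (bfn L k b)]
          with s hs
        rw [hs]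
        exact norm_fn_le L k b s
      refine this.trans (le_of_eq (by ring)))

theorem KK_ae (L : ℝ) (k : ℝ × ℝ →ᵇ ℂ) (b : XX L) : KK L k b =ᵐ[mu L] fn L k b :=
  BoundedContinuousFunction.coeFn_toLp (E := ℂ) 2 (mu L) ℂ (bfn L k b)

theorem KK_inner (L : ℝ) (k : ℝ × ℝ →ᵇ ℂ) (a b : XX L) :
    ⟪a, KK L k b⟫_ℂ = ∫ s in Set.Ioc (0 : ℝ) L, conj (a s) *
      ∫ t in Set.Ioc (0 : ℝ) L, k (s, t) * b t := by
  rw [L2.inner_def]
  refine integral_congr_ae ?_
  filter_upwards [KK_ae L k b] with s hs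
  rw [hs, fn_eq, RCLike.inner_apply, mul_comm]

/-! ### finite rank approximation -/

noncomputable def idxN (M n : ℕ) : Fin (M + 1) := ⟨min (n - 1) M, by omega⟩

noncomputable def idx (L : ℝ) (M : ℕ) (s : ℝ) : Fin (M + 1) := idxN M ⌈s * (M + 1) / L⌉₊

theorem measurable_idx (L : ℝ) (M : ℕ) : Measurable (idx L M) := by
  have h1 : Measurable fun s : ℝ => ⌈s * (M + 1) / L⌉₊ :=
    Nat.measurable_ceil.comp (by fun_prop)
  exact (measurable_from_nat (f := idxN M)).comp h1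

theorem memLp_idx (L : ℝ) (M : ℕ) (c : Fin (M + 1) → ℂ) :
    MemLp (fun s => c (idx L M s)) 2 (mu L) := by
  refine MemLp.of_bound ?_ ‖c‖ (Eventually.of_forall fun s => norm_le_pi_norm c _)
  exact ((measurable_of_finite c).comp (measurable_idx L M)).aestronglyMeasurable

noncomputable def uu (L : ℝ) (M : ℕ) : (Fin (M + 1) → ℂ) →ₗ[ℂ] XX L where
  toFun c := (memLp_idx L M c).toLp _
  map_add' _ _ := rfl
  map_smul' _ _ := rfl

theorem uu_ae (L : ℝ) (M : ℕ) (c : Fin (M + 1) → ℂ) :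
    uu L M c =ᵐ[mu L] fun s => c (idx L M s) := (memLp_idx L M c).coeFn_toLp

noncomputable def pt (L : ℝ) (M : ℕ) (i : Fin (M + 1)) : ℝ := (i : ℝ) * L / (M + 1)

noncomputable def vv (L : ℝ) (M : ℕ) (k : ℝ × ℝ →ᵇ ℂ) : XX L →L[ℂ] (Fin (M + 1) → ℂ) :=
  ContinuousLinearMap.pi fun i => innerSL ℂ (row L k (pt L M i))

theorem vv_apply (L : ℝ) (M : ℕ) (k : ℝ × ℝ →ᵇ ℂ) (b : XX L) (i : Fin (M + 1)) :
    vv L M k b i = ⟪row L k (pt L M i), b⟫_ℂ := rfl

theorem pt_idx {L : ℝ} (hL : 0 < L) (M : ℕ) {s : ℝ} (hs : s ∈ Set.Ioc 0 L) :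
    pt L M (idx L M s) ∈ Set.Icc 0 L ∧ |s - pt L M (idx L M s)| ≤ L / (M + 1) := by
  obtain ⟨h0, h1⟩ := hs
  have hM : (0 : ℝ) < M + 1 := by positivity
  set x : ℝ := s * (M + 1) / L with hx
  have hx0 : 0 < x := by positivity
  have hxM : x ≤ M + 1 := by
    rw [hx, div_le_iff₀ hL]
    nlinarith
  have hc1 : 1 ≤ ⌈x⌉₊ := Nat.one_le_iff_ne_zero.2 (Nat.ceil_pos.2 hx0).ne'
  have hc2 : ⌈x⌉₊ ≤ M + 1 := by
    rw [Nat.ceil_le]; exact_mod_cast hxM
  have hval : ((idx L M s : ℕ) : ℝ) = (⌈x⌉₊ : ℝ) - 1 := by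
    have : (idx L M s : ℕ) = ⌈x⌉₊ - 1 := by
      change min (⌈x⌉₊ - 1) M = _
      omega
    rw [this, Nat.cast_sub hc1]; simp
  have hle : (⌈x⌉₊ : ℝ) - 1 < x := by
    have := Nat.ceil_lt_add_one hx0.le
    linarith
  have hge : x ≤ (⌈x⌉₊ : ℝ) := Nat.le_ceil x
  have hsx : s = x * L / (M + 1) := by rw [hx]; field_simp
  have hc1' : (1 : ℝ) ≤ ⌈x⌉₊ := by exact_mod_cast hc1
  have hc2' : (⌈x⌉₊ : ℝ) ≤ M + 1 := by exact_mod_cast hc2
  unfold pt
  rw [hval]
  refine ⟨⟨?_, ?_⟩, ?_⟩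
  · have : 0 ≤ (⌈x⌉₊ : ℝ) - 1 := by linarith
    positivity
  · rw [div_le_iff₀ hM]
    nlinarith
  · have e : s - ((⌈x⌉₊ : ℝ) - 1) * L / (M + 1) = (x - ((⌈x⌉₊ : ℝ) - 1)) * (L / (M + 1)) := by
      conv_lhs => rw [hsx]
      ring
    rw [e, abs_of_nonneg (mul_nonneg (by linarith) (by positivity))]
    have : (x - ((⌈x⌉₊ : ℝ) - 1)) ≤ 1 := by linarith
    calc (x - ((⌈x⌉₊ : ℝ) - 1)) * (L / (M + 1)) ≤ 1 * (L / (M + 1)) :=
          mul_le_mul_of_nonneg_right this (by positivity)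
      _ = L / (M + 1) := one_mul _

theorem approx {L : ℝ} (hL : 0 < L) (k : ℝ × ℝ →ᵇ ℂ) : Approx (KK L k) := by
  intro ε hε
  set D := DD L
  have hD : 0 ≤ D := DD_nonneg L
  set δ : ℝ := ε / (2 * (D * D + 1)) with hδ
  have hδ0 : 0 < δ := by positivity
  have huc : UniformContinuousOn (k : ℝ × ℝ → ℂ) (Set.Icc 0 L ×ˢ Set.Icc 0 L) :=
    (isCompact_Icc.prod isCompact_Icc).uniformContinuousOn_of_continuous k.continuous.continuousOn
  obtain ⟨η, hη, hk⟩ := Metric.uniformContinuousOn_iff.1 huc δ hδ0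
  obtain ⟨M, hM⟩ := exists_nat_gt (L / η)
  have hM1 : (0 : ℝ) < M + 1 := by positivity
  have hMη : L / (M + 1) < η := by
    rw [div_lt_iff₀ hη] at hM
    rw [div_lt_iff₀ hM1]
    nlinarith
  refine ⟨M + 1, (uu L M).toContinuousLinearMap, vv L M k, ?_⟩
  have hrow : ∀ s ∈ Set.Ioc (0 : ℝ) L,
      ‖row L k s - row L k (pt L M (idx L M s))‖ ≤ D * δ := by
    intro s hs
    obtain ⟨h1, h2⟩ := pt_idx hL M hs
    refine Lp.norm_le_of_ae_bound hδ0.le ?_
    filter_upwards [row_ae L k s, row_ae L k (pt L M (idx L M s)),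
      Lp.coeFn_sub (row L k s) (row L k (pt L M (idx L M s))),
      ae_restrict_mem measurableSet_Ioc] with t e1 e2 e3 ht
    rw [e3, Pi.sub_apply, e1, e2, ← map_sub, RCLike.norm_conj, ← dist_eq_norm]
    refine (hk (s, t) ⟨⟨hs.1.le, hs.2⟩, ⟨ht.1.le, ht.2⟩⟩ (pt L M (idx L M s), t)
      ⟨h1, ⟨ht.1.le, ht.2⟩⟩ ?_).le
    rw [Prod.dist_eq]
    simp only [dist_self]
    rw [max_lt_iff]
    refine ⟨?_, hη⟩
    rw [Real.dist_eq]
    exact h2.trans_lt hMη
  have hle : ‖KK L k - ((uu L M).toContinuousLinearMap).comp (vv L M k)‖ ≤ D * (D * δ) := by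
    refine ContinuousLinearMap.opNorm_le_bound _ (mul_nonneg hD (mul_nonneg hD hδ0.le)) fun b => ?_
    have : ‖(KK L k - ((uu L M).toContinuousLinearMap).comp (vv L M k)) b‖ ≤
        D * (D * δ * ‖b‖) := by
      refine Lp.norm_le_of_ae_bound (mul_nonneg (mul_nonneg hD hδ0.le) (norm_nonneg _)) ?_
      have e0 : (KK L k - ((uu L M).toContinuousLinearMap).comp (vv L M k)) b =
        KK L k b - uu L M (vv L M k b) := rfl
      rw [e0]
      filter_upwards [KK_ae L k b, uu_ae L M (vv L M k b),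
        Lp.coeFn_sub (KK L k b) (uu L M (vv L M k b)),
        ae_restrict_mem measurableSet_Ioc] with s e1 e2 e3 hs
      rw [e3, Pi.sub_apply, e1, e2, vv_apply]
      unfold fn
      rw [← inner_sub_left]
      exact (norm_inner_le_norm _ _).trans
        (mul_le_mul_of_nonneg_right (hrow s hs) (norm_nonneg _))
    refine this.trans (le_of_eq (by ring))
  refine hle.trans_lt ?_
  have : D * (D * δ) = (D * D) * δ := by ring
  rw [this, hδ]
  have h2 : 0 < D * D + 1 := by positivity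
  rw [mul_div_assoc', div_lt_iff₀ (by positivity)]
  nlinarith

theorem main : JobKernel := fun L hL => ⟨KK L, KK_inner L, approx hL⟩

end Pool.Agent.U606.LC.Ker
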