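import Pool.Agent.U37.LC.Stm

set_option autoImplicit false

open MeasureTheory Filter Topology Complex
open scoped ComplexConjugate InnerProductSpace BoundedContinuousFunction FourierTransform Real

namespace Pool.Agent.U606.LC.Pars

theorem hasSum_circle (F H : C(UnitAddCircle, ℂ)) :
    HasSum (fun i : ℤ => conj (fourierCoeff F i) * fourierCoeff H i)
      (∫ k in (0 : ℝ)..1, conj (F (k : UnitAddCircle)) * H (k : UnitAddCircle)) := by
  have key := (fourierBasis (T := (1 : ℝ))).hasSum_inner_mul_inner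
    (ContinuousMap.toLp (E := ℂ) 2 AddCircle.haarAddCircle ℂ F)
    (ContinuousMap.toLp (E := ℂ) 2 AddCircle.haarAddCircle ℂ H)
  have e1 : ∀ (K : C(UnitAddCircle, ℂ)) (i : ℤ), ⟪fourierBasis (T := (1 : ℝ)) i,
      ContinuousMap.toLp (E := ℂ) 2 AddCircle.haarAddCircle ℂ K⟫_ℂ = fourierCoeff K i := by
    intro K i
    rw [← HilbertBasis.repr_apply_apply, fourierBasis_repr, fourierCoeff_toLp]
  have e2 : ∀ i : ℤ, ⟪ContinuousMap.toLp (E := ℂ) 2 AddCircle.haarAddCircle ℂ F,
      fourierBasis (T := (1 : ℝ)) i⟫_ℂ = conj (fourierCoeff F i) := by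
    intro i
    rw [← inner_conj_symm, e1]
  simp_rw [e1, e2] at key
  rw [ContinuousMap.inner_toLp] at key
  have e3 : (∫ k in (0 : ℝ)..1, conj (F (k : UnitAddCircle)) * H (k : UnitAddCircle)) =
      ∫ x, H x * conj (F x) ∂AddCircle.haarAddCircle := by
    have := UnitAddCircle.intervalIntegral_preimage 0 (fun x => conj (F x) * H x)
    rw [zero_add] at this
    rw [this, AddCircle.integral_haarAddCircle]
    simp [mul_comm]
  rw [e3]
  exact key

theorem lift (g : ℝ × ℝ → ℂ) (C x y : ℝ) (hg : Continuous g)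
    (hb : ∀ q : ℝ × ℝ, ‖g q‖ ≤ C / ((1 + q.1 ^ 2) * (1 + q.2 ^ 2))) :
    ∃ F : C(UnitAddCircle, ℂ), (∀ k : ℝ, F (k : UnitAddCircle) =
      ∑' n : ℤ, ∫ η : ℝ, g (k + n, η) * cexp (2 * Real.pi * I * ((k + n) * x + η * y))) ∧
      ∀ j : ℤ, fourierCoeff F (-j) =
        ∫ q : ℝ × ℝ, g q * cexp (2 * Real.pi * I * (q.1 * (x + j) + q.2 * y)) := by
  have hC : 0 ≤ C := by
    have := (norm_nonneg _).trans (hb 0)
    simpa using this
  have hnorm : ∀ r : ℝ, ‖cexp (2 * Real.pi * I * (r : ℂ))‖ = 1 := by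
    intro r
    rw [Complex.norm_exp]
    simp
  have hint : Integrable (fun q : ℝ × ℝ => C / ((1 + q.1 ^ 2) * (1 + q.2 ^ 2))) := by
    have := (integrable_inv_one_add_sq.mul_prod integrable_inv_one_add_sq).const_mul C
    refine this.congr (Eventually.of_forall fun q => ?_)
    simp only
    rw [div_eq_mul_inv, mul_inv]
  let e : ℝ × ℝ → ℂ := fun q => g q * cexp (2 * Real.pi * I * (q.1 * x + q.2 * y))
  have he : Continuous e := by fun_prop
  have heb : ∀ q, ‖e q‖ ≤ C / ((1 + q.1 ^ 2) * (1 + q.2 ^ 2)) := by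
    intro q
    have : ((q.1 : ℂ) * x + q.2 * y) = ((q.1 * x + q.2 * y : ℝ) : ℂ) := by push_cast; ring
    simp only [e, norm_mul]
    rw [this, hnorm, mul_one]
    exact hb q
  have hcont : Continuous fun p : ℝ => ∫ η : ℝ, e (p, η) := by
    refine continuous_of_dominated (bound := fun η => C * (1 + η ^ 2)⁻¹) ?_ ?_ ?_ ?_
    · intro p; exact (by fun_prop : Continuous fun η => e (p, η)).aestronglyMeasurable
    · intro p
      refine Eventually.of_forall fun η => (heb _).trans ?_
      rw [div_eq_mul_inv]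
      refine mul_le_mul_of_nonneg_left ?_ hC
      refine inv_anti₀ (by positivity) ?_
      have : 0 ≤ p ^ 2 * (1 + η ^ 2) := by positivity
      simp only
      nlinarith
    · exact integrable_inv_one_add_sq.const_mul C
    · exact Eventually.of_forall fun η => by fun_prop
  let f : C(ℝ, ℂ) := ⟨fun p => ∫ η : ℝ, e (p, η), hcont⟩
  have hfb : ∀ p, ‖f p‖ ≤ C * π * (1 + p ^ 2)⁻¹ := by
    intro p
    have h1 : ‖f p‖ ≤ ∫ η : ℝ, C * (1 + p ^ 2)⁻¹ * (1 + η ^ 2)⁻¹ := by
      refine norm_integral_le_of_norm_le (integrable_inv_one_add_sq.const_mul _)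
        (Eventually.of_forall fun η => (heb _).trans (le_of_eq ?_))
      simp only
      rw [div_eq_mul_inv, mul_inv]; ring
    rw [integral_const_mul, integral_univ_inv_one_add_sq] at h1
    linarith [h1]
  have hO : (f : ℝ → ℂ) =O[cocompact ℝ] fun p => |p| ^ (-2 : ℝ) := by
    refine Asymptotics.IsBigO.of_bound (C * π) ?_
    filter_upwards [(isCompact_singleton (x := (0 : ℝ))).compl_mem_cocompact] with p hp
    have hp0 : p ≠ 0 := by simpa using hp
    refine (hfb p).trans ?_
    refine mul_le_mul_of_nonneg_left ?_ (by positivity)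
    rw [Real.norm_eq_abs, Real.rpow_neg (abs_nonneg p), Real.rpow_two, sq_abs, abs_inv,
      abs_of_nonneg (sq_nonneg p)]
    exact inv_anti₀ (by positivity) (by linarith)
  have hsum : ∀ K : TopologicalSpace.Compacts ℝ,
      Summable fun n : ℤ => ‖(f.comp (ContinuousMap.addRight n)).restrict K‖ := fun K =>
    summable_of_isBigO (Real.summable_abs_int_rpow (by norm_num : (1 : ℝ) < 2))
      ((isBigO_norm_restrict_cocompact f (by norm_num : (0 : ℝ) < 2) hO K).comp_tendsto
        Int.tendsto_coe_cofinite)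
  let F : C(UnitAddCircle, ℂ) :=
    ⟨(f.periodic_tsum_comp_add_zsmul 1).lift, continuous_coinduced_dom.mpr (map_continuous _)⟩
  refine ⟨F, fun k => ?_, fun j => ?_⟩
  · have h1 : F (k : UnitAddCircle) = (∑' n : ℤ, f.comp (ContinuousMap.addRight (n • 1))) k := rfl
    rw [h1]
    simp only [zsmul_one]
    rw [← ContinuousMap.tsum_apply (ContinuousMap.summable_of_locally_summable_norm hsum)]
    refine tsum_congr fun n => ?_
    change (∫ η : ℝ, e (k + n, η)) = _
    refine integral_congr_ae (Eventually.of_forall fun η => ?_)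
    simp only [e]
    push_cast
    rfl
  · have h1 := Real.fourierCoeff_tsum_comp_add hsum (-j)
    have h2 : fourierCoeff F (-j) = 𝓕 (f : ℝ → ℂ) (-j : ℤ) := h1
    rw [h2, Real.fourier_real_eq_integral_exp_smul]
    have h3 : (∫ q : ℝ × ℝ, g q * cexp (2 * Real.pi * I * (q.1 * (x + j) + q.2 * y))) =
        ∫ p : ℝ, ∫ η : ℝ, g (p, η) * cexp (2 * Real.pi * I * (p * (x + j) + η * y)) := by
      rw [Measure.volume_eq_prod, integral_prod]
      refine hint.mono' (by fun_prop) (Eventually.of_forall fun q => ?_)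
      rw [norm_mul]
      have : ((q.1 : ℂ) * (x + j) + q.2 * y) = ((q.1 * (x + j) + q.2 * y : ℝ) : ℂ) := by
        push_cast; ring
      rw [this, hnorm, mul_one]
      exact hb q
    rw [h3]
    refine integral_congr_ae (Eventually.of_forall fun p => ?_)
    change _ • (∫ η : ℝ, e (p, η)) = _
    rw [smul_eq_mul, ← integral_const_mul]
    refine integral_congr_ae (Eventually.of_forall fun η => ?_)
    simp only [e]
    rw [mul_left_comm, ← Complex.exp_add]
    congr 2
    push_cast
    ring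

theorem main : Pool.Agent.U37.LC.JobParseval := by
  intro g h C x y hg hh hgb hhb
  obtain ⟨F, hF, hFc⟩ := lift g C x y hg hgb
  obtain ⟨H, hH, hHc⟩ := lift h C x y hh hhb
  have key := (Equiv.neg ℤ).hasSum_iff.mpr (hasSum_circle F H)
  simp only [Function.comp_def, Equiv.neg_apply, hFc, hHc, hF, hH] at key
  exact key

end Pool.Agent.U606.LC.Pars
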